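import Pool.Agent.Helper47.RF.CoreGoals

/-!
# Packet RF-C11 (5342, helper47): recognising smooth functions on the unit quaternions
-/

namespace Pool.Agent.Helper38.RF

open Finset Filter Topology Pool.Agent.Helper47.RF

/-- real part as a continuous linear map -/
noncomputable def cR : HH →L[ℝ] ℝ :=
  ⟨{ toFun := fun q => q.re, map_add' := fun a b => by simp, map_smul' := fun a b => by simp },
    Quaternion.continuous_re⟩

noncomputable def c0 : HH →L[ℝ] ℝ :=
  ⟨{ toFun := fun q => q.imI, map_add' := fun a b => by simp, map_smul' := fun a b => by simp },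
    Quaternion.continuous_imI⟩

noncomputable def c1 : HH →L[ℝ] ℝ :=
  ⟨{ toFun := fun q => q.imJ, map_add' := fun a b => by simp, map_smul' := fun a b => by simp },
    Quaternion.continuous_imJ⟩

noncomputable def c2 : HH →L[ℝ] ℝ :=
  ⟨{ toFun := fun q => q.imK, map_add' := fun a b => by simp, map_smul' := fun a b => by simp },
    Quaternion.continuous_imK⟩

@[simp] theorem cR_apply (q : HH) : cR q = q.re := rfl
@[simp] theorem c0_apply (q : HH) : c0 q = q.imI := rfl
@[simp] theorem c1_apply (q : HH) : c1 q = q.imJ := rfl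
@[simp] theorem c2_apply (q : HH) : c2 q = q.imK := rfl

/-- imaginary coordinates as continuous linear maps -/
noncomputable def cI : Fin 3 → (HH →L[ℝ] ℝ) := ![c0, c1, c2]

theorem one_re' : (1 : HH).re = 1 := rfl
theorem one_imI' : (1 : HH).imI = 0 := rfl
theorem one_imJ' : (1 : HH).imJ = 0 := rfl
theorem one_imK' : (1 : HH).imK = 0 := rfl
theorem zero_re' : (0 : HH).re = 0 := rfl
theorem zero_imI' : (0 : HH).imI = 0 := rfl
theorem zero_imJ' : (0 : HH).imJ = 0 := rfl
theorem zero_imK' : (0 : HH).imK = 0 := rfl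

theorem decomp (q : HH) : q.re • (1 : HH) + q.imI • qe 0 + q.imJ • qe 1 + q.imK • qe 2 = q := by
  ext <;> simp [qe, one_re', one_imI', one_imJ', one_imK']

theorem cI_qe (i j : Fin 3) : cI i (qe j) = if i = j then 1 else 0 := by
  fin_cases i <;> fin_cases j <;> simp [cI, qe]

theorem abs_comp_le (q : HH) : |q.re| ≤ ‖q‖ ∧ |q.imI| ≤ ‖q‖ ∧ |q.imJ| ≤ ‖q‖ ∧ |q.imK| ≤ ‖q‖ := by
  have h : ‖q‖ * ‖q‖ = q.re ^ 2 + q.imI ^ 2 + q.imJ ^ 2 + q.imK ^ 2 := by
    rw [← Quaternion.normSq_eq_norm_mul_self, Quaternion.normSq_def']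
  have hn := norm_nonneg q
  refine ⟨?_, ?_, ?_, ?_⟩ <;>
  · apply abs_le_of_sq_le_sq _ hn
    nlinarith [sq_nonneg q.re, sq_nonneg q.imI, sq_nonneg q.imJ, sq_nonneg q.imK]

theorem exp_ne (v : HH) : NormedSpace.exp v ≠ 0 := by
  letI : NormedAlgebra ℚ HH := NormedAlgebra.restrictScalars ℚ ℝ HH
  exact (NormedSpace.isUnit_exp v).ne_zero

theorem exp_split (s u : ℝ) (v : HH) :
    NormedSpace.exp (u • v) = NormedSpace.exp (s • v) * NormedSpace.exp ((u - s) • v) := by
  letI : NormedAlgebra ℚ HH := NormedAlgebra.restrictScalars ℚ ℝ HH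
  rw [← NormedSpace.exp_add_of_commute, ← add_smul]
  · congr 2; ring
  · exact ((Commute.refl v).smul_left s).smul_right (u - s)

section Seg

variable {f : HH → ℝ} {g : HH → ℝ} {v : HH}

theorem deriv_along (hd : ∀ x : HH, x ≠ 0 → HasDerivAt (fun s : ℝ => f (x * NormedSpace.exp (s • v))) (g x) 0)
    {z : HH} (hz : z ≠ 0) (s : ℝ) :
    HasDerivAt (fun u : ℝ => f (z * NormedSpace.exp (u • v))) (g (z * NormedSpace.exp (s • v))) s := by
  have hz' : z * NormedSpace.exp (s • v) ≠ 0 := mul_ne_zero hz (exp_ne _)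
  have h := hd _ hz'
  have h2 : HasDerivAt (fun u : ℝ => u - s) 1 s := (hasDerivAt_id s).sub_const s
  have h0 : s - s = (0 : ℝ) := sub_self s
  rw [← h0] at h
  have h3 := HasDerivAt.comp (h₂ := fun u : ℝ => f (z * NormedSpace.exp (s • v) * NormedSpace.exp (u • v)))
    (h := fun u : ℝ => u - s) s h h2
  rw [mul_one] at h3
  have he : ((fun u : ℝ => f (z * NormedSpace.exp (s • v) * NormedSpace.exp (u • v))) ∘ fun u : ℝ => u - s)
      = fun u : ℝ => f (z * NormedSpace.exp (u • v)) := by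
    funext u
    simp only [Function.comp]
    rw [exp_split s u v, mul_assoc]
  rw [he] at h3
  exact h3

theorem seg (hd : ∀ x : HH, x ≠ 0 → HasDerivAt (fun s : ℝ => f (x * NormedSpace.exp (s • v))) (g x) 0)
    {z : HH} (hz : z ≠ 0) (a m ε : ℝ)
    (hb : ∀ s : ℝ, |s| ≤ |a| → |g (z * NormedSpace.exp (s • v)) - m| ≤ ε) :
    |f (z * NormedSpace.exp (a • v)) - f z - a * m| ≤ ε * |a| := by
  have hder : ∀ s ∈ Metric.closedBall (0 : ℝ) |a|,
      HasDerivWithinAt (fun u : ℝ => f (z * NormedSpace.exp (u • v)) - u * m)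
        (g (z * NormedSpace.exp (s • v)) - 1 * m) (Metric.closedBall (0 : ℝ) |a|) s := by
    intro s _
    exact ((deriv_along hd hz s).sub ((hasDerivAt_id s).mul_const m)).hasDerivWithinAt
  have hbd : ∀ s ∈ Metric.closedBall (0 : ℝ) |a|, ‖g (z * NormedSpace.exp (s • v)) - 1 * m‖ ≤ ε := by
    intro s hs
    rw [Real.norm_eq_abs, one_mul]
    apply hb
    simpa using hs
  have h := (convex_closedBall (0 : ℝ) |a|).norm_image_sub_le_of_norm_hasDerivWithin_le hder hbd
    (by simp : (0 : ℝ) ∈ Metric.closedBall (0 : ℝ) |a|) (by simp : a ∈ Metric.closedBall (0 : ℝ) |a|)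
  simp only [Real.norm_eq_abs, zero_smul, NormedSpace.exp_zero, mul_one, zero_mul, sub_zero] at h
  have he : f (z * NormedSpace.exp (a • v)) - f z - a * m = f (z * NormedSpace.exp (a • v)) - a * m - f z := by
    ring
  rw [he]; exact h

end Seg

/-- the chart -/
noncomputable def Phi (x q : HH) : HH :=
  Real.exp (cR q) • (x * (NormedSpace.exp (c0 q • qe 0) * NormedSpace.exp (c1 q • qe 1) *
    NormedSpace.exp (c2 q • qe 2)))

theorem hexp (c : HH →L[ℝ] ℝ) (v : HH) :
    HasStrictFDerivAt (fun q => NormedSpace.exp (c q • v)) (c.smulRight v) 0 := by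
  have h1 : HasStrictFDerivAt (NormedSpace.exp : HH → HH) (1 : HH →L[ℝ] HH) ((c.smulRight v) 0) := by
    rw [map_zero]; exact hasStrictFDerivAt_exp_zero
  have h := HasStrictFDerivAt.comp (0 : HH) h1 (c.smulRight v).hasStrictFDerivAt
  exact h

noncomputable def mulE (x : HH) (hx : x ≠ 0) : HH ≃L[ℝ] HH :=
  ContinuousLinearEquiv.equivOfInverse (ContinuousLinearMap.mul ℝ HH x) (ContinuousLinearMap.mul ℝ HH x⁻¹)
    (fun y => by simp [← mul_assoc, inv_mul_cancel₀ hx])
    (fun y => by simp [← mul_assoc, mul_inv_cancel₀ hx])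

theorem Phi_zero (x : HH) : Phi x 0 = x := by
  simp [Phi, NormedSpace.exp_zero, zero_re', zero_imI', zero_imJ', zero_imK']

theorem Phi_deriv (x : HH) (hx : x ≠ 0) :
    HasStrictFDerivAt (Phi x) ((mulE x hx : HH ≃L[ℝ] HH) : HH →L[ℝ] HH) 0 := by
  have hr : HasStrictFDerivAt (fun q : HH => Real.exp (cR q)) (Real.exp (cR (0 : HH)) • cR) 0 :=
    cR.hasStrictFDerivAt.exp
  have h01 := (hexp c0 (qe 0)).mul' (hexp c1 (qe 1))
  have h012 := h01.mul' (hexp c2 (qe 2))
  have hx1 := h012.const_mul x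
  have h := hr.smul hx1
  refine (h.congr_fderiv ?_)
  ext1 q
  have hd := decomp q
  simp only [Pi.mul_apply, map_zero, zero_smul, NormedSpace.exp_zero, one_mul, mul_one, Real.exp_zero,
    one_smul]
  show _ = x * q
  conv_rhs => rw [← hd]
  simp [mul_add, ContinuousLinearMap.smulRight_apply]
  abel

theorem cont_box {G : HH → ℝ} (hG : ContinuousOn G {0}ᶜ) {x : HH} (hx : x ≠ 0) {ε : ℝ} (hε : 0 < ε) :
    ∃ δ > 0, ∀ a b c : ℝ, |a| < δ → |b| < δ → |c| < δ →
      |G (x * NormedSpace.exp (a • qe 0) * NormedSpace.exp (b • qe 1) * NormedSpace.exp (c • qe 2)) - G x|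
        < ε := by
  letI : NormedAlgebra ℚ HH := NormedAlgebra.restrictScalars ℚ ℝ HH
  have hP : Continuous (fun p : ℝ × ℝ × ℝ => x * NormedSpace.exp (p.1 • qe 0)
      * NormedSpace.exp (p.2.1 • qe 1) * NormedSpace.exp (p.2.2 • qe 2)) := by
    have hexp : Continuous (NormedSpace.exp : HH → HH) := NormedSpace.exp_continuous
    exact ((continuous_const.mul (hexp.comp (continuous_fst.smul continuous_const))).mul
      (hexp.comp ((continuous_fst.comp continuous_snd).smul continuous_const))).mul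
      (hexp.comp ((continuous_snd.comp continuous_snd).smul continuous_const))
  have h0 : (fun p : ℝ × ℝ × ℝ => x * NormedSpace.exp (p.1 • qe 0)
      * NormedSpace.exp (p.2.1 • qe 1) * NormedSpace.exp (p.2.2 • qe 2)) (0, 0, 0) = x := by
    simp [NormedSpace.exp_zero]
  have hGx : ContinuousAt G x := hG.continuousAt (isOpen_compl_singleton.mem_nhds hx)
  have hc : ContinuousAt (fun p : ℝ × ℝ × ℝ => G (x * NormedSpace.exp (p.1 • qe 0)
      * NormedSpace.exp (p.2.1 • qe 1) * NormedSpace.exp (p.2.2 • qe 2))) (0, 0, 0) := by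
    have : ContinuousAt G ((fun p : ℝ × ℝ × ℝ => x * NormedSpace.exp (p.1 • qe 0)
      * NormedSpace.exp (p.2.1 • qe 1) * NormedSpace.exp (p.2.2 • qe 2)) (0, 0, 0)) := by rw [h0]; exact hGx
    exact ContinuousAt.comp (f := fun p : ℝ × ℝ × ℝ => x * NormedSpace.exp (p.1 • qe 0)
      * NormedSpace.exp (p.2.1 • qe 1) * NormedSpace.exp (p.2.2 • qe 2)) this hP.continuousAt
  obtain ⟨δ, hδ, h⟩ := Metric.continuousAt_iff.1 hc ε hε
  refine ⟨δ, hδ, fun a b c ha hb hc' => ?_⟩
  have hdist : dist (a, b, c) ((0, 0, 0) : ℝ × ℝ × ℝ) < δ := by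
    rw [Prod.dist_eq, Prod.dist_eq]
    simp only [Real.dist_eq, sub_zero]
    exact max_lt ha (max_lt hb hc')
  have h' := h hdist
  rw [Real.dist_eq] at h'
  have h0' : x * NormedSpace.exp ((0 : ℝ) • qe 0) * NormedSpace.exp ((0 : ℝ) • qe 1)
      * NormedSpace.exp ((0 : ℝ) • qe 2) = x := h0
  simp only [h0'] at h'
  exact h'

/-- the function in the chart is differentiable at `0` -/
theorem chart_deriv {f : HH → ℝ} {G : Fin 3 → HH → ℝ} (hf : Hom0 f) (hG : ∀ i, ContinuousOn (G i) {0}ᶜ)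
    (hd : ∀ i (x : HH), x ≠ 0 → HasDerivAt (fun s : ℝ => f (x * NormedSpace.exp (s • qe i))) (G i x) 0)
    {x : HH} (hx : x ≠ 0) :
    HasFDerivAt (fun q => f (Phi x q)) (∑ i, G i x • cI i) 0 := by
  rw [hasFDerivAt_iff_isLittleO_nhds_zero, Asymptotics.isLittleO_iff]
  intro c hc
  have hε : 0 < c / 3 := by positivity
  obtain ⟨δ0, hδ0, h0⟩ := cont_box (hG 0) hx hε
  obtain ⟨δ1, hδ1, h1⟩ := cont_box (hG 1) hx hε
  obtain ⟨δ2, hδ2, h2⟩ := cont_box (hG 2) hx hε
  have hδ : 0 < min δ0 (min δ1 δ2) := lt_min hδ0 (lt_min hδ1 hδ2)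
  filter_upwards [Metric.ball_mem_nhds (0 : HH) hδ] with q hq
  rw [zero_add]
  have hq' : ‖q‖ < min δ0 (min δ1 δ2) := by simpa using hq
  have hq0 : ‖q‖ < δ0 := lt_of_lt_of_le hq' (min_le_left _ _)
  have hq1 : ‖q‖ < δ1 := lt_of_lt_of_le hq' ((min_le_right _ _).trans (min_le_left _ _))
  have hq2 : ‖q‖ < δ2 := lt_of_lt_of_le hq' ((min_le_right _ _).trans (min_le_right _ _))
  obtain ⟨-, ha, hb, hc'⟩ := abs_comp_le q
  have hfq : f (Phi x q) = f (x * NormedSpace.exp (q.imI • qe 0) * NormedSpace.exp (q.imJ • qe 1)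
      * NormedSpace.exp (q.imK • qe 2)) := by
    unfold Phi
    rw [hf _ _ (Real.exp_pos _)]
    simp only [c0_apply, c1_apply, c2_apply, mul_assoc]
  have hx0 : x * NormedSpace.exp (q.imI • qe 0) ≠ 0 := mul_ne_zero hx (exp_ne _)
  have hx1 : x * NormedSpace.exp (q.imI • qe 0) * NormedSpace.exp (q.imJ • qe 1) ≠ 0 :=
    mul_ne_zero hx0 (exp_ne _)
  have s0 := seg (hd 0) hx q.imI (G 0 x) (c / 3) (fun s hs => by
    have := h0 s 0 0 (lt_of_le_of_lt (hs.trans ha) hq0) (by simpa using hδ0) (by simpa using hδ0)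
    simpa [NormedSpace.exp_zero] using this.le)
  have s1 := seg (hd 1) hx0 q.imJ (G 1 x) (c / 3) (fun s hs => by
    have := h1 q.imI s 0 (lt_of_le_of_lt ha hq1) (lt_of_le_of_lt (hs.trans hb) hq1) (by simpa using hδ1)
    simpa [NormedSpace.exp_zero] using this.le)
  have s2 := seg (hd 2) hx1 q.imK (G 2 x) (c / 3) (fun s hs => by
    have := h2 q.imI q.imJ s (lt_of_le_of_lt ha hq2) (lt_of_le_of_lt hb hq2)
      (lt_of_le_of_lt (hs.trans hc') hq2)
    simpa using this.le)
  have hL : (∑ i, G i x • cI i) q = q.imI * G 0 x + q.imJ * G 1 x + q.imK * G 2 x := by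
    simp [Fin.sum_univ_three, cI]
    ring
  rw [hfq, hL, Phi_zero, Real.norm_eq_abs]
  have e0 : c / 3 * |q.imI| ≤ c / 3 * ‖q‖ := mul_le_mul_of_nonneg_left ha hε.le
  have e1 : c / 3 * |q.imJ| ≤ c / 3 * ‖q‖ := mul_le_mul_of_nonneg_left hb hε.le
  have e2 : c / 3 * |q.imK| ≤ c / 3 * ‖q‖ := mul_le_mul_of_nonneg_left hc' hε.le
  rw [abs_le] at s0 s1 s2 ⊢
  constructor <;> linarith [s0.1, s0.2, s1.1, s1.2, s2.1, s2.2]

/-- differentiability from the derivatives along the three fields -/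
theorem fdA {f : HH → ℝ} {G : Fin 3 → HH → ℝ} (hf : Hom0 f) (hG : ∀ i, ContinuousOn (G i) {0}ᶜ)
    (hd : ∀ i (x : HH), x ≠ 0 → HasDerivAt (fun s : ℝ => f (x * NormedSpace.exp (s • qe i))) (G i x) 0)
    {x : HH} (hx : x ≠ 0) :
    HasFDerivAt f (∑ i, G i x • (cI i ∘L ContinuousLinearMap.mul ℝ HH x⁻¹)) x := by
  have hΦ := Phi_deriv x hx
  have h1 := chart_deriv hf hG hd hx
  have h2 : HasFDerivAt (hΦ.localInverse (Phi x) (mulE x hx) 0)
      ((mulE x hx).symm : HH →L[ℝ] HH) (Phi x 0) := hΦ.to_localInverse.hasFDerivAt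
  have hΨ : hΦ.localInverse (Phi x) (mulE x hx) 0 (Phi x 0) = 0 := hΦ.localInverse_apply_image
  have h1' : HasFDerivAt (fun q => f (Phi x q)) (∑ i, G i x • cI i)
      (hΦ.localInverse (Phi x) (mulE x hx) 0 (Phi x 0)) := by rw [hΨ]; exact h1
  have h3 := h1'.comp (Phi x 0) h2
  have h4 : ∀ᶠ y in 𝓝 (Phi x 0), f y = ((fun q => f (Phi x q)) ∘
      (hΦ.localInverse (Phi x) (mulE x hx) 0)) y := by
    filter_upwards [hΦ.eventually_right_inverse] with y hy
    simp only [Function.comp]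
    rw [hy]
  have h5 := h3.congr_of_eventuallyEq h4
  rw [Phi_zero] at h5
  refine h5.congr_fderiv ?_
  ext1 q
  simp [Fin.sum_univ_three]
  rfl

theorem contDiffOn_inv' {n : WithTop ℕ∞} : ContDiffOn ℝ n (fun x : HH => x⁻¹) {0}ᶜ := by
  intro x hx
  have h := contDiffAt_ringInverse ℝ (n := n) (Units.mk0 x hx)
  have he : (Ring.inverse : HH → HH) = fun x : HH => x⁻¹ := by
    funext y; exact Ring.inverse_eq_inv y
  rw [he] at h
  exact h.contDiffWithinAt

theorem smooth_all {F : List (Fin 3) → HH → ℝ} (hH : ∀ w, Hom0 (F w)) (hC : ∀ w, ContinuousOn (F w) {0}ᶜ)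
    (hd : ∀ w i (x : HH), x ≠ 0 →
      HasDerivAt (fun s : ℝ => F w (x * NormedSpace.exp (s • qe i))) (F (i :: w) x) 0) (n : ℕ) :
    ∀ w, ContDiffOn ℝ n (F w) {0}ᶜ := by
  induction n with
  | zero =>
    intro w
    simpa using hC w
  | succ n ih =>
    intro w
    have hfd : ∀ x : HH, x ≠ 0 → HasFDerivAt (F w)
        (∑ i, F (i :: w) x • (cI i ∘L ContinuousLinearMap.mul ℝ HH x⁻¹)) x := fun x hx =>
      fdA (hH w) (G := fun i => F (i :: w)) (fun i => hC _) (fun i x hx => hd w i x hx) hx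
    have hcast : ((n + 1 : ℕ) : WithTop ℕ∞) = (n : WithTop ℕ∞) + 1 := by push_cast; rfl
    rw [hcast, contDiffOn_succ_iff_fderiv_of_isOpen isOpen_compl_singleton]
    refine ⟨fun x hx => (hfd x hx).differentiableAt.differentiableWithinAt, ?_, ?_⟩
    · intro h; exact absurd h (by simp)
    · have h1 : ContDiffOn ℝ n (fun x : HH => ∑ i, F (i :: w) x •
          (cI i ∘L ContinuousLinearMap.mul ℝ HH x⁻¹)) {0}ᶜ := by
        refine ContDiffOn.sum fun i _ => ?_
        refine (ih (i :: w)).smul ?_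
        have h2 : ContDiff ℝ n (fun y : HH => (ContinuousLinearMap.compL ℝ HH HH ℝ (cI i))
            ((ContinuousLinearMap.mul ℝ HH) y)) :=
          ((ContinuousLinearMap.compL ℝ HH HH ℝ (cI i)).contDiff).comp
            ((ContinuousLinearMap.mul ℝ HH).contDiff)
        exact h2.comp_contDiffOn contDiffOn_inv'
      exact h1.congr fun x hx => (hfd x hx).fderiv

end Pool.Agent.Helper38.RF

namespace Pool.Agent.Helper47.RF

open Pool.Agent.Helper38.RF

theorem goal_C11 : Goal_C11 := by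
  intro F hH hC hd
  have hfd : ∀ w (x : HH), x ≠ 0 → HasFDerivAt (F w)
      (∑ i, F (i :: w) x • (cI i ∘L ContinuousLinearMap.mul ℝ HH x⁻¹)) x := fun w x hx =>
    fdA (hH w) (G := fun i => F (i :: w)) (fun i => hC _) (fun i x hx => hd w i x hx) hx
  have hE : ∀ w i (x : HH), x ≠ 0 → fderiv ℝ (F w) x (x * qe i) = F (i :: w) x := by
    intro w i x hx
    rw [(hfd w x hx).fderiv]
    have h1 : x⁻¹ * (x * qe i) = qe i := by rw [← mul_assoc, inv_mul_cancel₀ hx, one_mul]
    simp only [ContinuousLinearMap.sum_apply, ContinuousLinearMap.smul_apply,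
      ContinuousLinearMap.comp_apply, ContinuousLinearMap.mul_apply', h1, cI_qe, smul_eq_mul]
    simp
  refine ⟨⟨contDiffOn_infty.2 fun n => smooth_all hH hC hd n [], hH []⟩, ?_⟩
  intro w
  induction w with
  | nil => intro x _; rfl
  | cons i w ih =>
    intro x hx
    show fderiv ℝ (Ew w (F [])) x (x * qe i) = _
    have he : Ew w (F []) =ᶠ[nhds x] F w := by
      filter_upwards [isOpen_compl_singleton.mem_nhds hx] with y hy
      exact ih y hy
    rw [he.fderiv_eq, hE w i x hx]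

end Pool.Agent.Helper47.RF
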