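import Pool.Agent.Helper73.RF.GoalsD

/-!
# Packet D1 (5489, helper73): elementary fields of `BA.Ax` for `baC T`
-/

set_option autoImplicit false

open Finset Pool.Agent.Helper47.RF Pool.Agent.Helper73.RF

namespace Pool.Agent.Helper38.RF

variable {T : ℝ}

theorem ev_eq (z : ZZ) (t : TI T) (f : BB T) : evB T z t f = exT f.1 ((z.1 : HH), (z.2 : HH), (t : ℝ)) := by
  rw [exT_of_mem _ (zz_mem z t)]; rfl

/-- every point of `Om T` is a rescaling of a point of `S³ × S³ × (0,T)` -/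
theorem red {p : W} (hp : p ∈ Om T) :
    ∃ (z : ZZ) (t : TI T), ∀ f : BB T, exT f.1 p = evB T z t f := by
  obtain ⟨h1, h2, h3, h4⟩ := hp
  have hr : 0 < ‖p.1‖⁻¹ := inv_pos.2 (norm_pos_iff.2 h1)
  have hs : 0 < ‖p.2.1‖⁻¹ := inv_pos.2 (norm_pos_iff.2 h2)
  refine ⟨(⟨‖p.1‖⁻¹ • p.1, ?_⟩, ⟨‖p.2.1‖⁻¹ • p.2.1, ?_⟩), ⟨p.2.2, h3, h4⟩, fun f => ?_⟩
  · rw [mem_sphere_zero_iff_norm, norm_smul, norm_inv, norm_norm, inv_mul_cancel₀ (norm_ne_zero_iff.2 h1)]
  · rw [mem_sphere_zero_iff_norm, norm_smul, norm_inv, norm_norm, inv_mul_cancel₀ (norm_ne_zero_iff.2 h2)]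
  · rw [ev_eq]
    exact (f.2.hom _ _ hr hs p ⟨h1, h2, h3, h4⟩).symm

theorem d1_ext (f g : BB T) (h : ∀ z t, evB T z t f = evB T z t g) : f = g := by
  apply Subtype.ext
  funext p
  obtain ⟨z, t, hz⟩ := red p.2
  rw [← exT_coe f.1 p, ← exT_coe g.1 p, hz f, hz g, h]

theorem d1_cont (f : BB T) : Continuous (fun p : ZZ × TI T => evB T p.1 p.2 f) := by
  have h1 : Continuous (fun p : ZZ × TI T => (((p.1.1 : HH), (p.1.2 : HH), (p.2 : ℝ)) : W)) := by
    fun_prop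
  have h2 : Continuous (fun p : ZZ × TI T => exT f.1 (((p.1.1 : HH), (p.1.2 : HH), (p.2 : ℝ)) : W)) :=
    f.2.cd.continuousOn.comp_continuous h1 (fun p => zz_mem p.1 p.2)
  have he : (fun p : ZZ × TI T => evB T p.1 p.2 f)
      = fun p : ZZ × TI T => exT f.1 (((p.1.1 : HH), (p.1.2 : HH), (p.2 : ℝ)) : W) := by
    funext p; exact ev_eq _ _ f
  rw [he]; exact h2

/-- the time function -/
noncomputable def ttB (T : ℝ) : BB T := ⟨fun p => p.1.2.2, isB_t⟩

theorem derB_tt (X : VF) (p : Om T) : (derB T X (ttB T)).1 p = (X.X p).2.2 := by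
  show fderiv ℝ (exT (fun p : Om T => p.1.2.2)) p (X.X p) = (X.X p).2.2
  have h : exT (fun p : Om T => p.1.2.2) =ᶠ[nhds (p : W)] fun p : W => p.2.2 := by
    filter_upwards [(isOpen_Om T).mem_nhds p.2] with p' hp'
    rw [exT_of_mem _ hp']
  rw [h.fderiv_eq]
  have h2 : HasFDerivAt (fun p : W => p.2.2)
      ((ContinuousLinearMap.snd ℝ HH ℝ).comp (ContinuousLinearMap.snd ℝ HH (HH × ℝ))) (p : W) :=
    ((ContinuousLinearMap.snd ℝ HH ℝ).comp (ContinuousLinearMap.snd ℝ HH (HH × ℝ))).hasFDerivAt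
  rw [h2.fderiv]; rfl

theorem derB_tt_const (a b c : HH) (d : ℝ) : derB T (vf a b c d) (ttB T) = algebraMap ℝ (BB T) d := by
  apply Subtype.ext
  funext p
  rw [derB_tt]
  rfl

theorem ev_der (X : VF) (z : ZZ) (t : TI T) (f : BB T) :
    evB T z t (derB T X f) = fderiv ℝ (exT f.1) ((z.1 : HH), (z.2 : HH), (t : ℝ))
      (X.X ((z.1 : HH), (z.2 : HH), (t : ℝ))) := rfl

theorem d1_time (f : BB T) (z : ZZ) (t : TI T) :
    HasDerivAt (fun r => exT f.1 ((z.1 : HH), (z.2 : HH), r)) (evB T z t (derB T (vf 0 0 0 1) f)) t := by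
  have h1 : HasDerivAt (fun r : ℝ => (((z.1 : HH), (z.2 : HH), r) : W)) ((0, 0, 1) : W) (t : ℝ) :=
    (hasDerivAt_const _ _).prodMk ((hasDerivAt_const _ _).prodMk (hasDerivAt_id _))
  have h2 := (exT_hasFDerivAt f.2 (zz_mem z t)).comp_hasDerivAt (t : ℝ) h1
  rw [ev_der]
  have h3 : (vf 0 0 0 1).X ((z.1 : HH), (z.2 : HH), (t : ℝ)) = ((0, 0, 1) : W) := by
    simp [vf]
  rw [h3]
  exact h2

theorem chainX (φ : ℝ → ℝ) (O : Set ℝ) (hO : IsOpen O) (hφ : ContDiffOn ℝ ((⊤ : ℕ∞) : WithTop ℕ∞) φ O)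
    (f g : BB T) (hf : ∀ z t, evB T z t f ∈ O) (hg : ∀ z t, evB T z t g = φ (evB T z t f)) (X : VF)
    (z : ZZ) (t : TI T) :
    evB T z t (derB T X g) = deriv φ (evB T z t f) * evB T z t (derB T X f) := by
  set p : W := ((z.1 : HH), (z.2 : HH), (t : ℝ)) with hp
  have hpm : p ∈ Om T := zz_mem z t
  have h1 : exT g.1 =ᶠ[nhds p] fun p' => φ (exT f.1 p') := by
    filter_upwards [(isOpen_Om T).mem_nhds hpm] with p' hp'
    obtain ⟨z', t', h⟩ := red hp'
    rw [h g, h f, hg]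
  have hfp : exT f.1 p ∈ O := by
    have := hf z t
    rwa [ev_eq] at this
  have h2 : HasDerivAt φ (deriv φ (exT f.1 p)) (exT f.1 p) := by
    have := (hφ.contDiffAt (hO.mem_nhds hfp)).differentiableAt (by simp)
    exact this.hasDerivAt
  have h3 : HasFDerivAt (fun p' => φ (exT f.1 p')) (deriv φ (exT f.1 p) • fderiv ℝ (exT f.1) p) p :=
    h2.comp_hasFDerivAt p (exT_hasFDerivAt f.2 hpm)
  rw [ev_der, ev_der, ← hp, h1.fderiv_eq, h3.fderiv, ev_eq, ← hp]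
  rfl

theorem d1_comp (φ : ℝ → ℝ) (O : Set ℝ) (_hO : IsOpen O) (hφ : ContDiffOn ℝ ((⊤ : ℕ∞) : WithTop ℕ∞) φ O)
    (f : BB T) (hf : ∀ z t, evB T z t f ∈ O) : ∃ g : BB T, ∀ z t, evB T z t g = φ (evB T z t f) := by
  have hm : Set.MapsTo (exT f.1) (Om T) O := by
    intro p hp
    obtain ⟨z, t, h⟩ := red hp
    rw [h f]; exact hf z t
  have hB : IsB (fun p : Om T => φ (f.1 p)) := by
    have he : ∀ p ∈ Om T, exT (fun p : Om T => φ (f.1 p)) p = φ (exT f.1 p) := by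
      intro p hp
      rw [exT_of_mem _ hp, exT_of_mem _ hp]
    refine ⟨?_, ?_⟩
    · exact (hφ.comp f.2.cd hm).congr he
    · intro r s hr hs p hp
      rw [he _ (scW_mem hr hs hp), he _ hp, f.2.hom r s hr hs p hp]
  exact ⟨⟨_, hB⟩, fun z t => rfl⟩

theorem d1 : D1Stmt := by
  intro T
  refine ⟨?_, ?_, ?_, ?_, ?_, ?_, ?_, ?_, ?_, ?_⟩
  · exact fun f g h => d1_ext (T := T) f g h
  · exact fun f => d1_cont (T := T) f
  · exact fun z t => rfl
  · have h := derB_tt_const (T := T) 0 0 0 1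
    rw [map_one] at h
    exact h
  · intro i
    have h := derB_tt_const (T := T) (qe i) 0 0 0
    rw [map_zero] at h
    exact h
  · intro i
    have h := derB_tt_const (T := T) 0 ((1 / 2 : ℝ) • qe i) 0 0
    rw [map_zero] at h
    exact h
  · intro i
    have h := derB_tt_const (T := T) 0 0 ((-(1 / 2) : ℝ) • qe i) 0
    rw [map_zero] at h
    exact h
  · intro f z t
    have h := d1_time (T := T) f z t
    refine h.congr_of_eventuallyEq ?_
    filter_upwards [isOpen_Ioo.mem_nhds t.2] with r hr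
    have h1 : (baC T).val z f r = (baC T).ev z ⟨r, hr⟩ f := by
      unfold BA.val
      rw [dif_pos hr]
    rw [h1]
    exact ev_eq (T := T) z ⟨r, hr⟩ f
  · intro φ O hO hφ f hf
    exact d1_comp (T := T) φ O hO hφ f hf
  · intro φ O hO hφ f g hf hg z t
    have h := chainX (T := T) φ O hO hφ f g hf hg
    exact ⟨fun a => h _ z t, fun a => h _ z t, fun a => h _ z t, h _ z t⟩

end Pool.Agent.Helper38.RF
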