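import Pool.Agent.Helper73.RF.GoalsE

/-!
# Packet FLB, algebraic part: Laplacian and gradient of functions of `(x,t)` on the frame bundle
-/

set_option autoImplicit false

open Finset

namespace Pool.Agent.Helper73.RF.H38

variable {T : ℝ} (P : BA T) (A θ S0 : Fin 3 → Fin 3 → P.B)

/-- horizontal derivation -/
noncomputable def Ha (a : Fin 3) : Derivation ℝ P.B P.B :=
  ∑ b, P.R a b • (∑ i, A b i • P.E i + ∑ k, FR.om P.E A θ b k • P.U k)

theorem der_sum_apply {ι : Type} (s : Finset ι) (D : ι → Derivation ℝ P.B P.B) (f : P.B) :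
    (∑ i ∈ s, D i) f = ∑ i ∈ s, D i f := by
  classical
  induction s using Finset.induction_on with
  | empty => simp
  | insert a s ha ih => rw [sum_insert ha, sum_insert ha, Derivation.add_apply, ih]

theorem Ha_apply (a : Fin 3) (f : P.B) :
    Ha P A θ a f = ∑ b, P.R a b * (FR.Fd P.E A b f + ∑ k, FR.om P.E A θ b k * P.U k f) := by
  unfold Ha
  rw [der_sum_apply]
  refine sum_congr rfl fun b _ => ?_
  rw [Derivation.smul_apply, smul_eq_mul, Derivation.add_apply, der_sum_apply, der_sum_apply]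
  rfl

theorem Ha_xt (a : Fin 3) {f : P.B} (hf : ∀ k, P.U k f = 0) :
    Ha P A θ a f = ∑ b, P.R a b * FR.Fd P.E A b f := by
  rw [Ha_apply]
  refine sum_congr rfl fun b _ => ?_
  simp [hf]

variable {P}

theorem rot1 (hP : P.Ax) (G : Fin 3 → Fin 3 → P.B) :
    ∑ a, ∑ b, ∑ c, P.R a b * P.R a c * G b c = ∑ b, G b b := by
  rw [sum_comm]
  refine sum_congr rfl fun b _ => ?_
  rw [sum_comm]
  have h : ∀ c, ∑ a, P.R a b * P.R a c * G b c = (if b = c then 1 else 0) * G b c := by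
    intro c
    rw [← sum_mul, hP.RtR]
  simp only [h]
  simp

theorem rot2 (hP : P.Ax) (w : Fin 3 → P.B) :
    ∑ a, (∑ b, P.R a b * w b) * (∑ b, P.R a b * w b) = ∑ b, w b * w b := by
  rw [← rot1 hP (fun b c => w b * w c)]
  refine sum_congr rfl fun a _ => ?_
  rw [sum_mul_sum]
  refine sum_congr rfl fun b _ => sum_congr rfl fun c _ => ?_
  ring

theorem Fd_xt (hP : P.Ax) (hA : ∀ a i k, P.U k (A a i) = 0) (b : Fin 3) {f : P.B}
    (hf : ∀ k, P.U k f = 0) : ∀ k, P.U k (FR.Fd P.E A b f) = 0 := by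
  intro k
  unfold FR.Fd
  rw [map_sum]
  refine sum_eq_zero fun i _ => ?_
  rw [Derivation.leibniz, hA, ← hP.EU, hf, map_zero]
  simp

theorem Ha_R (hP : P.Ax) (a b : Fin 3) :
    Ha P A θ a (P.R a b) = ∑ c, ∑ e, P.R a c * P.R a e * ∑ k, eps k b e • FR.om P.E A θ c k := by
  rw [Ha_apply]
  refine sum_congr rfl fun c _ => ?_
  have h1 : FR.Fd P.E A c (P.R a b) = 0 := by
    unfold FR.Fd
    refine sum_eq_zero fun i _ => ?_
    rw [hP.ER, mul_zero]
  rw [h1, zero_add]
  simp only [hP.UR]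
  simp only [mul_sum, mul_smul_comm]
  rw [sum_comm]
  refine sum_congr rfl fun e _ => sum_congr rfl fun k _ => ?_
  congr 1
  ring

theorem lap_aux (hP : P.Ax) (hA : ∀ a i k, P.U k (A a i) = 0) {f : P.B} (hf : ∀ k, P.U k f = 0) :
    ∑ a, Ha P A θ a (Ha P A θ a f) = ∑ b, FR.Fd P.E A b (FR.Fd P.E A b f)
      + ∑ c, ∑ b, FR.Fd P.E A b f * ∑ k, eps k b c • FR.om P.E A θ c k := by
  have h1 : ∀ a, Ha P A θ a (Ha P A θ a f)
      = ∑ b, ∑ c, P.R a b * P.R a c * FR.Fd P.E A c (FR.Fd P.E A b f)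
        + ∑ c, ∑ e, P.R a c * P.R a e * ∑ b, FR.Fd P.E A b f * ∑ k, eps k b e • FR.om P.E A θ c k := by
    intro a
    rw [Ha_xt P A θ a hf, map_sum]
    have h2 : ∀ b, Ha P A θ a (P.R a b * FR.Fd P.E A b f)
        = ∑ c, P.R a b * P.R a c * FR.Fd P.E A c (FR.Fd P.E A b f)
          + ∑ c, ∑ e, P.R a c * P.R a e * (FR.Fd P.E A b f * ∑ k, eps k b e • FR.om P.E A θ c k) := by
      intro b
      rw [Derivation.leibniz, Ha_xt P A θ a (Fd_xt A hP hA b hf), Ha_R A θ hP a b, smul_eq_mul, smul_eq_mul,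
        mul_sum, mul_sum]
      congr 1
      · refine sum_congr rfl fun c _ => ?_
        ring
      · refine sum_congr rfl fun c _ => ?_
        rw [mul_sum]
        refine sum_congr rfl fun e _ => ?_
        ring
    simp only [h2]
    rw [sum_add_distrib]
    congr 1
    rw [sum_comm]
    refine sum_congr rfl fun c _ => ?_
    rw [sum_comm]
    refine sum_congr rfl fun e _ => ?_
    rw [mul_sum]
  simp only [h1]
  rw [sum_add_distrib, rot1 hP (fun b c => FR.Fd P.E A c (FR.Fd P.E A b f)),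
    rot1 hP (fun c e => ∑ b, FR.Fd P.E A b f * ∑ k, eps k b e • FR.om P.E A θ c k)]

/-- the Laplacian of a function of `(x,t)` -/
theorem lap (hP : P.Ax) (hFra : FraStmt) (hLcr : LcrStmt) (hH : FrameHyp P.E A θ)
    (hA : ∀ a i k, P.U k (A a i) = 0) {f : P.B} (hf : ∀ k, P.U k f = 0) :
    ∑ a, Ha P A θ a (Ha P A θ a f) = ∑ i, ∑ j, FR.gi A i j * (P.E i (P.E j f)
      - ∑ k, FR.KE P.E A θ i j k * P.E k f) := by
  obtain ⟨-, -, hanti, hGam, -, -, -⟩ := hFra P.B P.E A θ hH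
  obtain ⟨hL, -, -⟩ := hLcr P.B P.E A θ hH
  rw [lap_aux A θ hP hA hf]
  have h1 : ∀ c b, ∑ k, eps k b c • FR.om P.E A θ c k = - FR.Gam P.E A θ c c b := by
    intro c b
    rw [← hGam, hanti]
  simp only [h1]
  -- `∑_b Γ_ccb F_b f`
  have h2 : ∀ c, ∑ b, FR.Fd P.E A b f * -FR.Gam P.E A θ c c b
      = -∑ l, (FR.Fd P.E A c (A c l) + ∑ i, ∑ j, A c i * A c j * FR.KE P.E A θ i j l) * P.E l f := by
    intro c
    simp only [hL c c]
    rw [← sum_neg_distrib]
    have h3 : ∀ b, FR.Fd P.E A b f * -FR.Gam P.E A θ c c b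
        = ∑ l, -(FR.Gam P.E A θ c c b * A b l * P.E l f) := by
      intro b
      unfold FR.Fd
      rw [sum_mul]
      refine sum_congr rfl fun l _ => ?_
      ring
    simp only [h3]
    rw [sum_comm]
    refine sum_congr rfl fun l _ => ?_
    rw [sum_mul, ← sum_neg_distrib]
  have h4 : ∀ c, FR.Fd P.E A c (FR.Fd P.E A c f)
      = ∑ l, FR.Fd P.E A c (A c l) * P.E l f + ∑ i, ∑ l, A c i * A c l * P.E i (P.E l f) := by
    intro c
    have h5 : FR.Fd P.E A c (FR.Fd P.E A c f) = ∑ i, A c i * P.E i (∑ l, A c l * P.E l f) := rfl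
    rw [h5]
    simp only [map_sum, Derivation.leibniz, smul_eq_mul, mul_sum, mul_add, sum_add_distrib]
    rw [add_comm]
    congr 1
    · rw [sum_comm]
      refine sum_congr rfl fun l _ => ?_
      unfold FR.Fd
      rw [sum_mul]
      refine sum_congr rfl fun i _ => ?_
      ring
    · refine sum_congr rfl fun i _ => sum_congr rfl fun l _ => ?_
      ring
  simp only [h2, h4]
  rw [← sum_add_distrib]
  have h6 : ∀ c, (∑ l, FR.Fd P.E A c (A c l) * P.E l f + ∑ i, ∑ l, A c i * A c l * P.E i (P.E l f))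
      + -∑ l, (FR.Fd P.E A c (A c l) + ∑ i, ∑ j, A c i * A c j * FR.KE P.E A θ i j l) * P.E l f
      = ∑ i, ∑ j, A c i * A c j * (P.E i (P.E j f) - ∑ k, FR.KE P.E A θ i j k * P.E k f) := by
    intro c
    have h7 : ∑ l, (FR.Fd P.E A c (A c l) + ∑ i, ∑ j, A c i * A c j * FR.KE P.E A θ i j l) * P.E l f
        = ∑ l, FR.Fd P.E A c (A c l) * P.E l f
          + ∑ i, ∑ j, A c i * A c j * ∑ k, FR.KE P.E A θ i j k * P.E k f := by
      simp only [add_mul, sum_add_distrib]
      congr 1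
      simp only [sum_mul, mul_sum]
      rw [sum_comm]
      refine sum_congr rfl fun i _ => ?_
      rw [sum_comm]
      refine sum_congr rfl fun j _ => sum_congr rfl fun k _ => ?_
      ring
    rw [h7]
    simp only [mul_sub, sum_sub_distrib]
    ring
  simp only [h6]
  rw [sum_comm]
  refine sum_congr rfl fun i _ => ?_
  rw [sum_comm]
  refine sum_congr rfl fun j _ => ?_
  unfold FR.gi
  rw [sum_mul]

/-- the gradient square of a function of `(x,t)` -/
theorem grad (hP : P.Ax) {f : P.B} (hf : ∀ k, P.U k f = 0) :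
    ∑ a, Ha P A θ a f * Ha P A θ a f = ∑ b, FR.Fd P.E A b f * FR.Fd P.E A b f := by
  simp only [fun a => Ha_xt P A θ a hf]
  exact rot2 hP _

theorem n2eq (hP : P.Ax) (N : Fin 3 → Fin 3 → P.B) :
    ∑ i, ∑ j, (∑ l, ∑ k, P.R i l * P.R j k * N l k) ^ 2 = ∑ l, ∑ k, N l k ^ 2 := by
  have h1 : ∀ i j, ∑ l, ∑ k, P.R i l * P.R j k * N l k = ∑ l, P.R i l * ∑ k, P.R j k * N l k := by
    intro i j
    refine sum_congr rfl fun l _ => ?_
    rw [mul_sum]
    refine sum_congr rfl fun k _ => ?_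
    ring
  simp only [h1, pow_two]
  rw [sum_comm]
  simp only [fun j => rot2 hP (fun l => ∑ k, P.R j k * N l k)]
  rw [sum_comm]
  simp only [fun l => rot2 hP (fun k => N l k)]

end Pool.Agent.Helper73.RF.H38
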