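import Pool.Agent.Helper64.RF.GoalsF

/-!
# Packet F-CON (5378, helper64): the connection on `TM ⊕ ℝ` in Cayley coordinates
-/

open Quaternion

namespace Pool.Agent.Helper38.RF

open Pool.Agent.Helper64.RF

/-- derivative of `X` -/
noncomputable def dX (ξ : W) : W →L[ℝ] ℍ[ℝ] :=
  ((ContinuousLinearMap.mul ℝ ℍ[ℝ]).flip (1 + iot ξ) + ContinuousLinearMap.mul ℝ ℍ[ℝ] (1 + iot ξ)).comp iotL

theorem dX_apply (ξ a : W) : dX ξ a = iot a * (1 + iot ξ) + (1 + iot ξ) * iot a := by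
  simp [dX, mul_add, add_mul]

/-- `Jc ξ` as a continuous linear map -/
noncomputable def JL (ξ : W) : W →L[ℝ] W :=
  imL.comp ((ContinuousLinearMap.mul ℝ ℍ[ℝ] (X ξ)⁻¹).comp (dX ξ))

theorem JL_apply (ξ a : W) : JL ξ a = Jc ξ a := by
  simp [JL, Jc, dX_apply]

theorem cd_iot : ContDiff ℝ (⊤ : ℕ∞) (fun ξ : W => (1 : ℍ[ℝ]) + iot ξ) := by
  have h : ContDiff ℝ (⊤ : ℕ∞) (fun ξ : W => (1 : ℍ[ℝ]) + iotL ξ) :=
    contDiff_const.add iotL.contDiff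
  exact h

theorem cd_X : ContDiff ℝ (⊤ : ℕ∞) X := cd_iot.mul cd_iot

theorem cd_dX : ContDiff ℝ (⊤ : ℕ∞) dX := by
  have h1 : ContDiff ℝ (⊤ : ℕ∞) (fun ξ : W => (ContinuousLinearMap.mul ℝ ℍ[ℝ]).flip (1 + iot ξ)
      + ContinuousLinearMap.mul ℝ ℍ[ℝ] (1 + iot ξ)) :=
    (((ContinuousLinearMap.mul ℝ ℍ[ℝ]).flip.contDiff).comp cd_iot).add
      (((ContinuousLinearMap.mul ℝ ℍ[ℝ]).contDiff).comp cd_iot)
  exact h1.clm_comp contDiff_const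

theorem cd_inv (cay : CAY) : ContDiff ℝ (⊤ : ℕ∞) (fun ξ => (X ξ)⁻¹) := by
  rw [contDiff_iff_contDiffAt]
  intro ξ
  have h := contDiffAt_ringInverse ℝ (n := (⊤ : ℕ∞)) (Units.mk0 (X ξ) (cay.1 ξ))
  have he : (Ring.inverse : ℍ[ℝ] → ℍ[ℝ]) = fun x => x⁻¹ := by
    funext y; exact Ring.inverse_eq_inv y
  rw [he] at h
  exact ContDiffAt.comp ξ h cd_X.contDiffAt

theorem cd_JL (cay : CAY) : ContDiff ℝ (⊤ : ℕ∞) JL := by
  have h1 : ContDiff ℝ (⊤ : ℕ∞) (fun ξ : W => ContinuousLinearMap.mul ℝ ℍ[ℝ] (X ξ)⁻¹) :=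
    ((ContinuousLinearMap.mul ℝ ℍ[ℝ]).contDiff).comp (cd_inv cay)
  exact contDiff_const.clm_comp (h1.clm_comp cd_dX)

theorem hX (cay : CAY) (ξ : W) : HasFDerivAt X (dX ξ) ξ := by
  obtain ⟨D, hD, hDa⟩ := cay.2.1 ξ
  have : D = dX ξ := by
    ext1 a; rw [hDa, dX_apply]
  rwa [this] at hD

/-- derivative of the Maurer-Cartan form -/
noncomputable def dJ (ξ b a : W) : W :=
  Helper64.RF.im (-((X ξ)⁻¹ * dX ξ a * (X ξ)⁻¹) * dX ξ b + (X ξ)⁻¹ * (iot b * iot a + iot a * iot b))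

theorem hJ (cay : CAY) (ξ b : W) :
    ∃ L : W →L[ℝ] W, HasFDerivAt (fun ζ => Jc ζ b) L ξ ∧ ∀ a, L a = dJ ξ b a := by
  have h1 : HasFDerivAt (fun ζ => (X ζ)⁻¹) ((-ContinuousLinearMap.mulLeftRight ℝ ℍ[ℝ] (X ξ)⁻¹ (X ξ)⁻¹).comp
      (dX ξ)) ξ := HasFDerivAt.comp ξ (hasFDerivAt_inv' (cay.1 ξ)) (hX cay ξ)
  have hi : HasFDerivAt (fun ζ : W => (1 : ℍ[ℝ]) + iot ζ) iotL ξ := by
    have := (iotL.hasFDerivAt (x := ξ)).const_add (1 : ℍ[ℝ])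
    exact this
  have h2 : HasFDerivAt (fun ζ => iot b * (1 + iot ζ) + (1 + iot ζ) * iot b)
      ((iot b) • iotL + (ContinuousLinearMap.mul ℝ ℍ[ℝ]).flip (iot b) ∘L iotL) ξ := by
    have ha := hi.const_mul (iot b)
    have hb := HasFDerivAt.comp ξ (((ContinuousLinearMap.mul ℝ ℍ[ℝ]).flip (iot b)).hasFDerivAt
      (x := (1 : ℍ[ℝ]) + iot ξ)) hi
    exact ha.add hb
  have h3 := h1.mul' h2
  have h4 := HasFDerivAt.comp ξ (imL.hasFDerivAt (x := (X ξ)⁻¹ * (iot b * (1 + iot ξ) + (1 + iot ξ) * iot b)))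
    h3
  refine ⟨_, h4, ?_⟩
  intro a
  simp only [dJ, ContinuousLinearMap.comp_apply, imL_apply]
  congr 1
  simp [dX_apply]
  rw [mul_add (X ξ)⁻¹ (iot b * iot a) (iot a * iot b)]
  abel

theorem MC (ξ a b : W) : dJ ξ b a - dJ ξ a b = - br (Jc ξ a) (Jc ξ b) := by
  have h1 : Jc ξ a = Helper64.RF.im ((X ξ)⁻¹ * dX ξ a) := by rw [dX_apply]; rfl
  have h2 : Jc ξ b = Helper64.RF.im ((X ξ)⁻¹ * dX ξ b) := by rw [dX_apply]; rfl
  rw [h1, h2, ← im_comm, dJ, dJ, ← im_sub, ← im_neg]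
  congr 1
  noncomm_ring

/-- chain and product rule for bilinear fields -/
theorem hbil (cay : CAY) {F' : Type*} [NormedAddCommGroup F'] [NormedSpace ℝ F']
    {H : ℍ[ℝ] → W →L[ℝ] W →L[ℝ] F'} (hH : SS H) (ξ b Y : W) :
    ∃ L : W →L[ℝ] F', HasFDerivAt (fun ζ => H (X ζ) (Jc ζ b) Y) L ξ ∧
      ∀ a, L a = Ed (Jc ξ a) H (X ξ) (Jc ξ b) Y + H (X ξ) (dJ ξ b a) Y := by
  obtain ⟨LJ, hLJ, hLJa⟩ := hJ cay ξ b
  have h1 : HasFDerivAt (fun ζ => H (X ζ)) ((fderiv ℝ H (X ξ)).comp (dX ξ)) ξ :=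
    HasFDerivAt.comp ξ (hH.differentiableAt (cay.1 ξ)).hasFDerivAt (hX cay ξ)
  have h2 := (h1.clm_apply hLJ).clm_apply (hasFDerivAt_const Y ξ)
  refine ⟨_, h2, ?_⟩
  intro a
  have h3 : fderiv ℝ H (X ξ) (dX ξ a) = Ed (Jc ξ a) H (X ξ) := by
    rw [hH.fderiv_apply (cay.1 ξ), dX_apply]; rfl
  simp [hLJa, h3]
  abel

/-- blocks -/
noncomputable def k1 : (W →L[ℝ] W) →L[ℝ] ((W × ℝ) →L[ℝ] (W × ℝ)) :=
  ((ContinuousLinearMap.compL ℝ (W × ℝ) W (W × ℝ)) (ContinuousLinearMap.inl ℝ W ℝ)).comp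
    ((ContinuousLinearMap.compL ℝ (W × ℝ) W W).flip (ContinuousLinearMap.fst ℝ W ℝ))

noncomputable def k2 : W →L[ℝ] ((W × ℝ) →L[ℝ] (W × ℝ)) :=
  ((ContinuousLinearMap.compL ℝ (W × ℝ) W (W × ℝ)) (ContinuousLinearMap.inl ℝ W ℝ)).comp
    ((ContinuousLinearMap.smulRightL ℝ (W × ℝ) W) (ContinuousLinearMap.snd ℝ W ℝ))

noncomputable def k3 : (W →L[ℝ] ℝ) →L[ℝ] ((W × ℝ) →L[ℝ] (W × ℝ)) :=
  ((ContinuousLinearMap.compL ℝ (W × ℝ) ℝ (W × ℝ)) (ContinuousLinearMap.inr ℝ W ℝ)).comp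
    ((ContinuousLinearMap.compL ℝ (W × ℝ) W ℝ).flip (ContinuousLinearMap.fst ℝ W ℝ))

theorem k1_apply (A : W →L[ℝ] W) (s : W × ℝ) : k1 A s = (A s.1, 0) := by simp [k1]
theorem k2_apply (v : W) (s : W × ℝ) : k2 v s = (s.2 • v, 0) := by simp [k2]
theorem k3_apply (A : W →L[ℝ] ℝ) (s : W × ℝ) : k3 A s = (0, A s.1) := by simp [k3]

/-- the connection matrix -/
noncomputable def Bt (g : ℍ[ℝ] → W →L[ℝ] W →L[ℝ] ℝ) (G : ℍ[ℝ] → W →L[ℝ] W →L[ℝ] W) (ξ : W) :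
    W →L[ℝ] ((W × ℝ) →L[ℝ] (W × ℝ)) :=
  (k1.comp (G (X ξ)) + k2 - k3.comp (g (X ξ))).comp (JL ξ)

theorem Bt_apply (g : ℍ[ℝ] → W →L[ℝ] W →L[ℝ] ℝ) (G : ℍ[ℝ] → W →L[ℝ] W →L[ℝ] W) (ξ a Y : W) (f : ℝ) :
    Bt g G ξ a (Y, f) = (G (X ξ) (Jc ξ a) Y + f • Jc ξ a, - g (X ξ) (Jc ξ a) Y) := by
  simp [Bt, JL_apply, k1_apply, k2_apply, k3_apply]

theorem cd_Bt (cay : CAY) {g : ℍ[ℝ] → W →L[ℝ] W →L[ℝ] ℝ} {G : ℍ[ℝ] → W →L[ℝ] W →L[ℝ] W}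
    (hg : SS g) (hG : SS G) : ContDiff ℝ (⊤ : ℕ∞) (Bt g G) := by
  have h1 : ContDiff ℝ (⊤ : ℕ∞) (fun ξ => G (X ξ)) := by
    rw [contDiff_iff_contDiffAt]
    intro ξ
    exact ContDiffAt.comp ξ (hG.contDiffAt (cay.1 ξ)) cd_X.contDiffAt
  have h2 : ContDiff ℝ (⊤ : ℕ∞) (fun ξ => g (X ξ)) := by
    rw [contDiff_iff_contDiffAt]
    intro ξ
    exact ContDiffAt.comp ξ (hg.contDiffAt (cay.1 ξ)) cd_X.contDiffAt
  exact ((((contDiff_const (c := k1)).clm_comp h1).add (contDiff_const (c := k2))).sub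
    ((contDiff_const (c := k3)).clm_comp h2)).clm_comp (cd_JL cay)

theorem fderiv_Bt (cay : CAY) {g : ℍ[ℝ] → W →L[ℝ] W →L[ℝ] ℝ} {G : ℍ[ℝ] → W →L[ℝ] W →L[ℝ] W}
    (hg : SS g) (hG : SS G) (ξ a b Y : W) (f : ℝ) :
    fderiv ℝ (Bt g G) ξ a b (Y, f) =
      (Ed (Jc ξ a) G (X ξ) (Jc ξ b) Y + G (X ξ) (dJ ξ b a) Y + f • dJ ξ b a,
        - (Ed (Jc ξ a) g (X ξ) (Jc ξ b) Y + g (X ξ) (dJ ξ b a) Y)) := by
  have hB : HasFDerivAt (Bt g G) (fderiv ℝ (Bt g G) ξ) ξ :=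
    (((cd_Bt cay hg hG).differentiable (by simp)) ξ).hasFDerivAt
  have hB2 := (hB.clm_apply (hasFDerivAt_const b ξ)).clm_apply (hasFDerivAt_const ((Y, f) : W × ℝ) ξ)
  obtain ⟨L1, hL1, hL1a⟩ := hbil cay hG ξ b Y
  obtain ⟨L2, hL2, hL2a⟩ := hbil cay hg ξ b Y
  obtain ⟨LJ, hLJ, hLJa⟩ := hJ cay ξ b
  have h3 : HasFDerivAt (fun ζ => (G (X ζ) (Jc ζ b) Y + f • Jc ζ b, - g (X ζ) (Jc ζ b) Y))
      ((L1 + f • LJ).prod (-L2)) ξ := (hL1.add (hLJ.const_smul f)).prodMk hL2.neg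
  have he : (fun ζ => Bt g G ζ b (Y, f)) =
      fun ζ => (G (X ζ) (Jc ζ b) Y + f • Jc ζ b, - g (X ζ) (Jc ζ b) Y) := by
    funext ζ; exact Bt_apply g G ζ b Y f
  rw [← he] at h3
  have h4 := hB2.unique h3
  have h5 := congrArg (fun L => L a) h4
  simp only [ContinuousLinearMap.prod_apply, ContinuousLinearMap.add_apply, ContinuousLinearMap.neg_apply,
    ContinuousLinearMap.smul_apply, hL1a, hL2a, hLJa] at h5
  rw [← h5]
  simp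

theorem con (cay : CAY) : CON := by
  intro g G hMet hLC
  have hg := hMet.smooth
  have hG := hLC.smooth
  refine ⟨Bt g G, cd_Bt cay hg hG, Bt_apply g G, ?_, ?_⟩
  · rintro ξ a ⟨Y, f⟩ ⟨Y', f'⟩
    have h1 : HasFDerivAt (fun ζ => g (X ζ)) ((fderiv ℝ g (X ξ)).comp (dX ξ)) ξ :=
      HasFDerivAt.comp ξ (hg.differentiableAt (cay.1 ξ)).hasFDerivAt (hX cay ξ)
    have h2 := (((h1.clm_apply (hasFDerivAt_const Y ξ)).clm_apply (hasFDerivAt_const Y' ξ))).add_const (f * f')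
    have h3 : fderiv ℝ g (X ξ) (dX ξ a) = Ed (Jc ξ a) g (X ξ) := by
      rw [hg.fderiv_apply (cay.1 ξ), dX_apply]; rfl
    have h4 : fderiv ℝ (fun ζ => Gh g (X ζ) (Y, f) (Y', f')) ξ a = Ed (Jc ξ a) g (X ξ) Y Y' := by
      have h5 : (fun ζ => Gh g (X ζ) (Y, f) (Y', f')) = fun ζ => g (X ζ) Y Y' + f * f' := rfl
      rw [h5, h2.fderiv]
      simp [h3]
    rw [h4, hLC.metric (X ξ) (cay.1 ξ), Bt_apply, Bt_apply]
    simp only [Gh, map_add, map_smul, ContinuousLinearMap.add_apply, ContinuousLinearMap.smul_apply,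
      smul_eq_mul]
    rw [hMet.symm (X ξ) Y (Jc ξ a)]
    ring
  · intro ξ a b Y f
    set u := Jc ξ a with hu
    set v := Jc ξ b with hv
    have hMC := MC ξ a b
    rw [← hu, ← hv] at hMC
    have htor := hLC.torsion (X ξ) (cay.1 ξ) u v
    simp only [Fc, ContinuousLinearMap.add_apply, ContinuousLinearMap.sub_apply,
      ContinuousLinearMap.comp_apply]
    rw [fderiv_Bt cay hg hG, fderiv_Bt cay hg hG]
    simp only [Bt_apply, ← hu, ← hv]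
    have hGMC : G (X ξ) (dJ ξ b a) Y = G (X ξ) (dJ ξ a b) Y - G (X ξ) (br u v) Y := by
      have : dJ ξ b a = dJ ξ a b - br u v := by
        rw [sub_eq_add_neg, ← hMC]; abel
      rw [this, map_sub, ContinuousLinearMap.sub_apply]
    have hgMC : g (X ξ) (dJ ξ b a) Y = g (X ξ) (dJ ξ a b) Y - g (X ξ) (br u v) Y := by
      have : dJ ξ b a = dJ ξ a b - br u v := by
        rw [sub_eq_add_neg, ← hMC]; abel
      rw [this, map_sub, ContinuousLinearMap.sub_apply]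
    have hJMC : dJ ξ b a = dJ ξ a b - br u v := by
      rw [sub_eq_add_neg, ← hMC]; abel
    have hm1 := hLC.metric (X ξ) (cay.1 ξ) u v Y
    have hm2 := hLC.metric (X ξ) (cay.1 ξ) v u Y
    ext1
    · simp only [Prod.fst_add, Prod.fst_sub, Rm]
      rw [hGMC, hJMC, ← htor]
      simp only [map_add, map_smul, map_sub, ContinuousLinearMap.add_apply, ContinuousLinearMap.smul_apply,
        ContinuousLinearMap.sub_apply, smul_sub, smul_add, neg_smul]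
      abel
    · simp only [Prod.snd_add, Prod.snd_sub]
      rw [hgMC, hm1, hm2, ← htor]
      simp only [map_add, map_smul, map_sub, ContinuousLinearMap.add_apply, ContinuousLinearMap.smul_apply,
        ContinuousLinearMap.sub_apply, smul_eq_mul]
      rw [hMet.symm (X ξ) v u]
      ring

end Pool.Agent.Helper38.RF
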