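import Pool.Agent.Helper38.RF.FLBa

/-!
# Packet FLB (5524, helper73): the bundle of a flow
-/

set_option autoImplicit false

open Finset Pool.Agent.Helper47.RF

namespace Pool.Agent.Helper73.RF.H38

variable {T : ℝ}

/-! ### jointly smooth families -/

theorem JS.mul' {u v : ℝ → HH → ℝ} (hu : JS T u) (hv : JS T v) : JS T (fun t x => u t x * v t x) := by
  refine ⟨hu.cd.mul hv.cd, fun t h0 h1 r x hr => ?_⟩
  show u t (r • x) * v t (r • x) = u t x * v t x
  rw [hu.hom t h0 h1 r x hr, hv.hom t h0 h1 r x hr]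

theorem JS.sum' {ι : Type} (s : Finset ι) {u : ι → ℝ → HH → ℝ} (hu : ∀ a ∈ s, JS T (u a)) :
    JS T (fun t x => ∑ a ∈ s, u a t x) := by
  refine ⟨ContDiffOn.sum fun a ha => (hu a ha).cd, fun t h0 h1 r x hr => ?_⟩
  refine sum_congr rfl fun a ha => ?_
  exact (hu a ha).hom t h0 h1 r x hr

theorem JS.cmul {u : ℝ → HH → ℝ} (c : ℝ) (hu : JS T u) : JS T (fun t x => c * u t x) := by
  refine ⟨contDiffOn_const.mul hu.cd, fun t h0 h1 r x hr => ?_⟩
  show c * u t (r • x) = c * u t x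
  rw [hu.hom t h0 h1 r x hr]

theorem JS.congr' {u v : ℝ → HH → ℝ} (hu : JS T u) (h : ∀ t, 0 < t → t < T → ∀ x, x ≠ 0 → v t x = u t x)
    (hv : ∀ t, 0 < t → t < T → Hom0 (v t)) : JS T v := by
  refine ⟨hu.cd.congr fun p hp => h _ hp.2.1 hp.2.2 _ hp.1, hv⟩

theorem eps_core (i j k : Fin 3) : Pool.Agent.Helper47.RF.eps i j k = eps i j k := by
  fin_cases i <;> fin_cases j <;> fin_cases k <;>
    simp [Pool.Agent.Helper47.RF.eps, eps] <;> norm_num

section Link

variable {A θ : ℝ → MF}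

theorem ev_emb (hD6 : D6Stmt) {u : ℝ → HH → ℝ} (hu : JS T u) (z : (baC T).Z) (t : TI T) :
    (baC T).ev z t (emb u hu) = u t (Prod.fst z : Metric.sphere (0 : HH) 1) :=
  ((hD6 T).1 u hu).1 z t

theorem ev_E_emb (hD6 : D6Stmt) {u : ℝ → HH → ℝ} (hu : JS T u) (i : Fin 3) (z : (baC T).Z) (t : TI T) :
    (baC T).ev z t ((baC T).E i (emb u hu)) = E i (u t) (Prod.fst z : Metric.sphere (0 : HH) 1) := by
  obtain ⟨hE, h⟩ := ((hD6 T).1 u hu).2.2.1 i
  rw [h, ev_emb hD6]

theorem ev_EE_emb (hD6 : D6Stmt) {u : ℝ → HH → ℝ} (hu : JS T u) (i j : Fin 3) (z : (baC T).Z) (t : TI T) :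
    (baC T).ev z t ((baC T).E i ((baC T).E j (emb u hu)))
      = E i (E j (u t)) (Prod.fst z : Metric.sphere (0 : HH) 1) := by
  obtain ⟨hE, h⟩ := ((hD6 T).1 u hu).2.2.1 j
  rw [h, ev_E_emb hD6]

theorem js_g (ht : JM T θ) (i j : Fin 3) : JS T (fun t x => gOf (θ t) x i j) := by
  have h := JS.sum' (T := T) univ (u := fun a t x => θ t x i a * θ t x j a)
    (fun a _ => JS.mul' (ht i a) (ht j a))
  have he : (fun t x => ∑ a, θ t x i a * θ t x j a) = fun t x => gOf (θ t) x i j := by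
    funext t x
    simp [gOf, Matrix.mul_apply]
  rwa [he] at h

theorem g_emb (hD6 : D6Stmt) (hDax : DaxStmt) (ht : JM T θ) (i j : Fin 3) :
    FR.g (embM ht) i j = emb _ (js_g ht i j) := by
  apply (hDax T).ext
  intro z t
  rw [ev_emb hD6]
  unfold FR.g
  rw [map_sum]
  simp only [map_mul, embM, ev_emb hD6, gOf, Matrix.mul_apply, Matrix.transpose_apply]

theorem ev_KL (hD6 : D6Stmt) (hDax : DaxStmt) (ht : JM T θ) (z : (baC T).Z) (t : TI T) (i j k : Fin 3) :
    (baC T).ev z t (FR.KL (baC T).E (embM ht) i j k)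
      = GamL (gOf (θ t)) i j k (Prod.fst z : Metric.sphere (0 : HH) 1) := by
  unfold FR.KL GamL
  simp only [g_emb hD6 hDax ht, map_smul, map_add, map_sub, map_sum, ev_E_emb hD6, ev_emb hD6, smul_eq_mul,
    eps_core]
  ring

theorem ev_gi (hD6 : D6Stmt) (hA : JM T A) (z : (baC T).Z) (t : TI T)
    (hg : (gOf (θ t) (Prod.fst z : Metric.sphere (0 : HH) 1))⁻¹
      = (A t (Prod.fst z : Metric.sphere (0 : HH) 1)).transpose * A t (Prod.fst z : Metric.sphere (0 : HH) 1))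
    (i j : Fin 3) :
    (baC T).ev z t (FR.gi (embM hA) i j)
      = (gOf (θ t) (Prod.fst z : Metric.sphere (0 : HH) 1))⁻¹ i j := by
  rw [hg]
  unfold FR.gi
  rw [map_sum]
  simp only [map_mul, embM, ev_emb hD6, Matrix.mul_apply, Matrix.transpose_apply]

theorem ev_KE (hD6 : D6Stmt) (hDax : DaxStmt) (hA : JM T A) (ht : JM T θ) (z : (baC T).Z) (t : TI T)
    (hg : (gOf (θ t) (Prod.fst z : Metric.sphere (0 : HH) 1))⁻¹
      = (A t (Prod.fst z : Metric.sphere (0 : HH) 1)).transpose * A t (Prod.fst z : Metric.sphere (0 : HH) 1))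
    (i j k : Fin 3) :
    (baC T).ev z t (FR.KE (baC T).E (embM hA) (embM ht) i j k)
      = Gam (gOf (θ t)) i j k (Prod.fst z : Metric.sphere (0 : HH) 1) := by
  unfold FR.KE Gam
  rw [map_sum]
  refine sum_congr rfl fun m _ => ?_
  rw [map_mul, ev_gi hD6 hA z t hg, ev_KL hD6 hDax ht]

end Link

theorem ev_ite (z : (baC T).Z) (t : TI T) (a b : Fin 3) :
    (baC T).ev z t (if a = b then 1 else 0) = (1 : Matrix (Fin 3) (Fin 3) ℝ) a b := by
  rw [Matrix.one_apply]
  split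
  · exact map_one _
  · exact map_zero _

end Pool.Agent.Helper73.RF.H38

namespace Pool.Agent.Helper38.RF

open Pool.Agent.Helper73.RF Pool.Agent.Helper73.RF.H38

theorem flb (hFjs : FjsStmt) (hLnk : LnkStmt) (hFrn : FrnStmt) (hD6 : D6Stmt) (hDax : DaxStmt)
    (hYom : YomStmt) (hLcr : LcrStmt) (hFra : FraStmt) : FlbStmt := by
  intro T I A θ hT hI hF hA ht
  have hP := hDax T
  obtain ⟨-, -, hR⟩ := hFjs T I A θ hT hI hF
  have hmem : ∀ t : ℝ, 0 < t → t < T → t ∈ I := fun t h0 h1 => hI ⟨h0, h1⟩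
  have hinv : ∀ t : ℝ, 0 < t → t < T → ∀ x, A t x * θ t x = 1 := fun t h0 h1 x =>
    hF.inv t (hmem t h0 h1) x
  have hinv' : ∀ t : ℝ, 0 < t → t < T → ∀ x, θ t x * A t x = 1 := fun t h0 h1 x =>
    mul_eq_one_comm.1 (hinv t h0 h1 x)
  have hfrm : ∀ t : ℝ, 0 < t → t < T → Frm (A t) (θ t) := fun t h0 h1 =>
    ⟨hinv t h0 h1, fun a i => (hF.flA a i).fam.sm t (hmem t h0 h1),
      fun i a => (hF.flt i a).fam.sm t (hmem t h0 h1)⟩
  have hRab : ∀ a b, JS T (fun t x => RicF (A t) (θ t) x a b) := fun a b => hR a b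
  have hN : ∀ (z : (baC T).Z) (t : TI T) (l k : Fin 3),
      (baC T).ev z t (FR.N (baC T).E (embM hA) (embM ht) l k)
      = Nc (A t) (θ t) (Prod.fst z : Metric.sphere (0 : HH) 1) l k := fun z t l k =>
    (hLnk T A θ hA ht hinv z t).1 l k
  have hS0 : ∀ a b, FR.Ricf (baC T).E (embM hA) (embM ht) a b = emb _ (hRab a b) := by
    intro a b
    apply hP.ext
    intro z t
    rw [ev_emb hD6]
    exact (hLnk T A θ hA ht hinv z t).2 a b
  have hNsym : ∀ l k, FR.N (baC T).E (embM hA) (embM ht) l k = FR.N (baC T).E (embM hA) (embM ht) k l := by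
    intro l k
    apply hP.ext
    intro z t
    rw [hN, hN]
    exact (hFrn _ _ (hfrm t t.2.1 t.2.2)).2.2.2.1 _ (sph_ne _) l k
  have hAt : ∀ a b, ∑ i, embM hA a i * embM ht i b = if a = b then 1 else 0 := by
    intro a b
    apply hP.ext
    intro z t
    rw [ev_ite, map_sum, ← hinv t t.2.1 t.2.2 (Prod.fst z : Metric.sphere (0 : HH) 1), Matrix.mul_apply]
    simp only [map_mul, embM, ev_emb hD6]
  have htA : ∀ i j, ∑ a, embM ht i a * embM hA a j = if i = j then 1 else 0 := by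
    intro a b
    apply hP.ext
    intro z t
    rw [ev_ite, map_sum, ← hinv' t t.2.1 t.2.2 (Prod.fst z : Metric.sphere (0 : HH) 1), Matrix.mul_apply]
    simp only [map_mul, embM, ev_emb hD6]
  have hFH : (baC T).FH (embM hA) (embM ht) (FR.Ricf (baC T).E (embM hA) (embM ht)) := by
    refine ⟨fun a i => ((hD6 T).1 _ (hA a i)).2.1, fun i a => ((hD6 T).1 _ (ht i a)).2.1, ?_, hAt, htA,
      ?_, ?_⟩
    · intro a b
      rw [hS0]
      exact ((hD6 T).1 _ (hRab a b)).2.1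
    · intro a i
      obtain ⟨hD, h⟩ := ((hD6 T).1 _ (hA a i)).2.2.2
        (fun t x => ∑ b, RicF (A t) (θ t) x a b * A t x b i) (by
          intro t h0 h1 x hx
          have h2 := (hF.flA a i).der [] x hx t (hmem t h0 h1)
          have hI' : I ∈ nhds t := Filter.mem_of_superset (isOpen_Ioo.mem_nhds ⟨h0, h1⟩) hI
          exact h2.hasDerivAt hI')
      show (baC T).Dt (emb _ (hA a i)) = _
      rw [h]
      apply hP.ext
      intro z t
      rw [ev_emb hD6, map_sum]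
      simp only [hS0, map_mul, embM, ev_emb hD6]
    · intro a b
      unfold FR.Ricf
      rw [hNsym a b]
      by_cases h : a = b
      · subst h; rfl
      · rw [if_neg h, if_neg (Ne.symm h)]
  have hFrH : FrameHyp (baC T).E (embM hA) (embM ht) := ⟨hP.EE, hAt, htA⟩
  obtain ⟨hFull, -, hs, hRF⟩ := hYom T (baC T) hP _ _ _ hFH
  have hUA : ∀ a i k, (baC T).U k (embM hA a i) = 0 := fun a i => (((hD6 T).1 _ (hA a i)).2.1).1
  -- functions of `(x,t)`
  have hgg : ∀ (u : ℝ → HH → ℝ) (hu : JS T u) (z : (flB hA ht).Z) (t : TI T) (x : HH),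
      x = (Prod.fst z : Metric.sphere (0 : HH) 1) →
      (flB hA ht).ev z t ((flB hA ht).gg (emb u hu) (emb u hu)) = ggC (gOf (θ t)) (u t) (u t) x := by
    intro u hu z t x hx
    have h1 : (flB hA ht).gg (emb u hu) (emb u hu)
        = ∑ b, FR.Fd (baC T).E (embM hA) b (emb u hu) * FR.Fd (baC T).E (embM hA) b (emb u hu) :=
      grad (embM hA) (embM ht) hP (((hD6 T).1 u hu).2.1).1
    rw [h1]
    show (baC T).ev z t _ = _
    rw [(hFrn _ _ (hfrm t t.2.1 t.2.2)).2.2.2.2.2.2.2 (u t) (u t) x, map_sum]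
    refine sum_congr rfl fun b _ => ?_
    have h2 : (baC T).ev z t (FR.Fd (baC T).E (embM hA) b (emb u hu)) = ∑ i, A t x b i * E i (u t) x := by
      unfold FR.Fd
      rw [map_sum]
      refine sum_congr rfl fun i _ => ?_
      rw [map_mul, ev_E_emb hD6, hx]
      congr 1
    rw [map_mul, h2]
  have hlap : ∀ (u : ℝ → HH → ℝ) (hu : JS T u) (z : (flB hA ht).Z) (t : TI T) (x : HH),
      x = (Prod.fst z : Metric.sphere (0 : HH) 1) →
      (flB hA ht).ev z t ((flB hA ht).Lap (emb u hu)) = LapC (gOf (θ t)) (u t) x := by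
    intro u hu z t x hx
    have h1 : (flB hA ht).Lap (emb u hu)
        = ∑ i, ∑ j, FR.gi (embM hA) i j * ((baC T).E i ((baC T).E j (emb u hu))
          - ∑ k, FR.KE (baC T).E (embM hA) (embM ht) i j k * (baC T).E k (emb u hu)) :=
      lap (embM hA) (embM ht) hP hFra hLcr hFrH hUA (((hD6 T).1 u hu).2.1).1
    rw [h1]
    show (baC T).ev z t _ = _
    have hg := (hFrn _ _ (hfrm t t.2.1 t.2.2)).2.1 (Prod.fst z : Metric.sphere (0 : HH) 1)
    unfold LapC
    rw [map_sum, hx]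
    refine sum_congr rfl fun i _ => ?_
    rw [map_sum]
    refine sum_congr rfl fun j _ => ?_
    rw [map_mul, map_sub, map_sum, ev_gi hD6 hA z t hg, ev_EE_emb hD6]
    congr 2
    refine sum_congr rfl fun k _ => ?_
    rw [map_mul, ev_KE hD6 hDax hA ht z t hg, ev_E_emb hD6]
  -- the function `s`
  have hsC : ∀ t : ℝ, 0 < t → t < T → ∀ x, x ≠ 0 →
      sC (A t) (θ t) x = 1 / 2 * ∑ a, RicF (A t) (θ t) x a a := by
    intro t h0 h1 x hx
    have h2 := (hFrn _ _ (hfrm t h0 h1)).2.2.2.2.2.1 x hx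
    have h3 : ∑ a, RicF (A t) (θ t) x a a = 3 * sC (A t) (θ t) x - sC (A t) (θ t) x := by
      conv_rhs => rw [sC]
      simp only [fun a => h2 a a, if_true]
      simp only [sC, Fin.sum_univ_three]
      ring
    rw [h3]; ring
  have hsJ : JS T (fun t x => sC (A t) (θ t) x) := by
    refine JS.congr' (JS.cmul (1 / 2) (JS.sum' univ (fun a _ => hRab a a))) hsC ?_
    intro t h0 h1 r x hr
    show ∑ i, Nc (A t) (θ t) (r • x) i i = ∑ i, Nc (A t) (θ t) x i i
    refine sum_congr rfl fun i _ => ?_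
    exact ((hFrn _ _ (hfrm t h0 h1)).2.2.1 i i).hom r x hr
  have hsev : ∀ (z : (baC T).Z) (t : TI T), (baC T).ev z t (∑ i, FR.N (baC T).E (embM hA) (embM ht) i i)
      = sC (A t) (θ t) (Prod.fst z : Metric.sphere (0 : HH) 1) := by
    intro z t
    rw [map_sum]
    simp only [hN]
    rfl
  have hsemb : (flB hA ht).s = emb _ hsJ := by
    refine Eq.trans hs ?_
    apply hP.ext
    intro z t
    rw [hsev, ev_emb hD6]
  refine ⟨hFull, hRF fun _ _ => rfl, ?_, ?_⟩
  · intro z t x hx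
    refine ⟨?_, ?_, ?_, ?_⟩
    · rw [hsemb, hx]
      exact ev_emb hD6 hsJ z t
    · have hn2 : (flB hA ht).n2 = ∑ l, ∑ k, FR.N (baC T).E (embM hA) (embM ht) l k ^ 2 :=
        n2eq hP (FR.N (baC T).E (embM hA) (embM ht))
      have hq : (flB hA ht).q = (∑ l, ∑ k, FR.N (baC T).E (embM hA) (embM ht) l k ^ 2)
          - (1 / 3 : ℝ) • (emb _ hsJ) ^ 2 := by
        unfold FBD.q
        rw [hn2, hsemb]
        rfl
      have hkey : ∀ z : (baC T).Z, (baC T).ev z t ((∑ l, ∑ k, FR.N (baC T).E (embM hA) (embM ht) l k ^ 2)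
          - (1 / 3 : ℝ) • (emb _ hsJ) ^ 2) = qC (A t) (θ t) (Prod.fst z : Metric.sphere (0 : HH) 1) := by
        intro z
        rw [map_sub, map_smul, map_pow, ev_emb hD6, map_sum]
        simp only [map_sum, map_pow, hN, smul_eq_mul]
        rfl
      rw [hq, hx]
      exact hkey z
    · rw [hsemb]
      exact hgg _ hsJ z t x hx
    · rw [hx]
      have hM : (flB hA ht).M 0 0 = ∑ l, ∑ k, (baC T).R 0 l * (baC T).R 0 k
          * FR.N (baC T).E (embM hA) (embM ht) l k := rfl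
      rw [hM]
      show (baC T).ev z t _ = _
      simp only [map_sum, map_mul, hN]
      rfl
  · intro u hu
    refine ⟨(((hD6 T).1 u hu).2.1).2, fun z t x hx => ⟨hgg u hu z t x hx, hlap u hu z t x hx⟩⟩

end Pool.Agent.Helper38.RF
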